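import Pool.Agent.R499.PC.Rec

/-!
# MP_90cb67_lc: a partition cut which is an external `δ`-set (if `𝔡 = 𝔠`, in particular under CH)

Consistent negative answer to Q1: if no family of fewer than continuum many functions `ℕ → ℕ` is
dominating (that is, `𝔡 = 𝔠`; this follows from the continuum hypothesis), then there are a
nonprincipal ultrafilter `F` on `ℕ` and a partition `P` of `ℕ` into countably many small sets such
that the partition cut `C_P` is external and is a `δ`-set.
-/

set_option autoImplicit false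

namespace Pool.Agent.Results.MP_90cb67_lc.CutIsDelta

open Filter Cardinal Pool.Agent.R499.PC

/-- the ultrapower `ℕ^ℕ / F` -/
abbrev StarN (F : Ultrafilter ℕ) : Type := Filter.Germ (F : Filter ℕ) ℕ

/-- internal subsets of the ultrapower -/
def Internal (F : Ultrafilter ℕ) (S : Set (StarN F)) : Prop :=
  ∃ A : ℕ → Set ℕ, ∀ f : ℕ → ℕ, (f : StarN F) ∈ S ↔ ∀ᶠ i in (F : Filter ℕ), f i ∈ A i

/-- the partition cut `C_P` -/
def Cut (F : Ultrafilter ℕ) (P : ℕ → Set ℕ) : Set (StarN F) :=
  {x | ∃ f : ℕ → ℕ, x = (f : StarN F) ∧ ∀ j, BddAbove (f '' P j)}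

/-- `δ`-sets: countable intersections of internal sets -/
def IsDelta (F : Ultrafilter ℕ) (S : Set (StarN F)) : Prop :=
  ∃ A : ℕ → Set (StarN F), (∀ k, Internal F (A k)) ∧ S = ⋂ k, A k

/-- `𝔡 = 𝔠`: no family of fewer than continuum many functions is dominating -/
def DominatingIsContinuum : Prop := ∀ S : Set (ℕ → ℕ), #S < Cardinal.continuum →
  ∃ u : ℕ → ℕ, ∀ v ∈ S, ¬ ∀ᶠ k in atTop, u k ≤ v k

/-- the conclusion: the negated form of Q1 -/
def Q1Fails : Prop := ∃ F : Ultrafilter ℕ, (F : Filter ℕ) ≤ Filter.cofinite ∧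
  ∃ P : ℕ → Set ℕ, Pairwise (fun i j => Disjoint (P i) (P j)) ∧ (⋃ j, P j) = Set.univ ∧
    (∀ j, P j ∉ F) ∧ ¬ Internal F (Cut F P) ∧ IsDelta F (Cut F P)

lemma dom_of (h : DominatingIsContinuum) : Dom := by
  intro S hS
  obtain ⟨u, hu⟩ := h S hS
  refine ⟨u, fun v hv N => ?_⟩
  have h1 := hu v hv
  rw [Filter.eventually_atTop] at h1
  push Not at h1
  obtain ⟨k, hk, hlt⟩ := h1 N
  exact ⟨k, hk, hlt⟩

lemma ch_imp (CH : Cardinal.continuum.{0} = Cardinal.aleph 1) : DominatingIsContinuum := by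
  intro S hS
  rw [CH] at hS
  have hc : S.Countable := (Cardinal.countable_iff_lt_aleph_one S).2 hS
  rcases S.eq_empty_or_nonempty with h0 | hne
  · exact ⟨fun _ => 0, by simp [h0]⟩
  obtain ⟨v, hv⟩ := hc.exists_eq_range hne
  refine ⟨fun k => (Finset.range (k + 1)).sup (fun n => v n k) + 1, ?_⟩
  intro w hw
  rw [hv] at hw
  obtain ⟨n, rfl⟩ := hw
  intro h
  rw [Filter.eventually_atTop] at h
  obtain ⟨N, hN⟩ := h
  have h1 := hN (max n N) (le_max_right _ _)
  dsimp only at h1
  have h2 : v n (max n N) ≤ (Finset.range (max n N + 1)).sup (fun m => v m (max n N)) :=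
    Finset.le_sup (f := fun m => v m (max n N))
      (Finset.mem_range.2 (Nat.lt_succ_of_le (le_max_left _ _)))
  omega

theorem main (hD : Dom) : Q1Fails := by
  obtain ⟨U, hU1, hU2⟩ := exists_ultra hD
  obtain ⟨e⟩ : Nonempty (L ≃ ℕ) := ⟨Denumerable.eqv L⟩
  have hpos : ∀ Z : Set ℕ, Z ∈ U.map e → Pos (e ⁻¹' Z) := fun Z hZ => hU1 _ hZ
  have hpos' : ∀ p : ℕ → Prop, (∀ᶠ i in (U.map e : Filter ℕ), p i) → Pos {a | p (e a)} :=
    fun p hp => hpos {i | p i} hp
  set P : ℕ → Set ℕ := fun j => {i | (e.symm i).length = j} with hP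
  -- the coordinate functions
  set φ : ℕ → ℕ → ℕ := fun n i => g n (e.symm i) with hφ
  -- bounded representatives
  have hbd : ∀ (f : ℕ → ℕ), (∀ j, BddAbove (f '' P j)) → ∀ (f' : ℕ → ℕ) (n : ℕ),
      (∀ᶠ i in (U.map e : Filter ℕ), f' i = f i) →
      ¬ ∀ᶠ i in (U.map e : Filter ℕ), φ n i ≤ f' i := by
    intro f hf f' n heq hle
    have h1 := hpos' _ (heq.and hle)
    obtain ⟨j, hj⟩ := h1.g_unbounded n
    obtain ⟨m, hm⟩ := hf j
    obtain ⟨a, ha, hl, hlt⟩ := hj m
    simp only [Set.mem_ofPred_eq] at ha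
    have h2 : f (e a) ≤ m := hm ⟨e a, by simp [hP, hl], rfl⟩
    have h3 : φ n (e a) = g n a := by simp [hφ]
    omega
  have hcut : ∀ f : ℕ → ℕ, ((f : StarN (U.map e)) ∈ Cut (U.map e) P) ↔
      ∀ n, ∀ᶠ i in (U.map e : Filter ℕ), f i < φ n i := by
    intro f
    constructor
    · rintro ⟨f', hf', hb⟩ n
      have heq : ∀ᶠ i in (U.map e : Filter ℕ), f i = f' i := Filter.Germ.coe_eq.1 hf'
      have h1 := hbd f' hb f n heq
      rw [← Ultrafilter.eventually_not] at h1
      filter_upwards [h1] with i hi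
      exact not_le.1 hi
    · intro h
      rcases hU2 (fun a => f (e a)) with ⟨n, hn⟩ | ⟨u, hu⟩
      · exfalso
        have h1 : ∀ᶠ a in (U : Filter L), f (e a) < φ n (e a) := h n
        have h2 : ∀ᶠ a in (U : Filter L), g n a ≤ f (e a) := hn
        obtain ⟨a, ha1, ha2⟩ := (h1.and h2).exists
        have h3 : φ n (e a) = g n a := by simp [hφ]
        omega
      · refine ⟨fun i => min (f i) (u (e.symm i).length), ?_, ?_⟩
        · rw [Filter.Germ.coe_eq]
          have h2 : ∀ᶠ a in (U : Filter L), f (e a) ≤ u a.length := hu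
          have h3 : ∀ᶠ i in (U.map e : Filter ℕ), f i = min (f i) (u (e.symm i).length) := by
            show ∀ᶠ a in (U : Filter L), f (e a) = min (f (e a)) (u (e.symm (e a)).length)
            filter_upwards [h2] with a ha
            simp [ha]
          exact h3
        · intro j
          refine ⟨u j, ?_⟩
          rintro _ ⟨i, hi, rfl⟩
          simp only [hP, Set.mem_ofPred_eq] at hi
          simp [hi]
  have hsmall : ∀ j, P j ∉ U.map e := by
    intro j hj
    have h1 := hpos _ hj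
    apply not_pos_column j
    refine h1.mono ?_
    intro a ha
    simpa [hP] using ha
  have hzero : ((fun _ => 0 : ℕ → ℕ) : StarN (U.map e)) ∈ Cut (U.map e) P := by
    refine ⟨fun _ => 0, rfl, fun j => ⟨0, ?_⟩⟩
    rintro _ ⟨i, _, rfl⟩
    exact le_rfl
  refine ⟨U.map e, ?_, P, ?_, ?_, hsmall, ?_, ?_⟩
  · -- nonprincipal
    rcases (U.map e).le_cofinite_or_eq_pure with h | ⟨i, hi⟩
    · exact h
    · exfalso
      apply hsmall ((e.symm i).length)
      rw [hi]
      exact Ultrafilter.mem_pure.2 rfl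
  · intro i j hij
    rw [Set.disjoint_left]
    intro n hn hn'
    simp only [hP, Set.mem_ofPred_eq] at hn hn'
    exact hij (hn.symm.trans hn')
  · ext i
    simp [hP]
  · -- external
    rintro ⟨A, hA⟩
    have h0 := (hA (fun _ => 0)).1 hzero
    have hφ0 : ((φ 0 : ℕ → ℕ) : StarN (U.map e)) ∉ Cut (U.map e) P := by
      intro h
      have := (hcut (φ 0)).1 h 0
      obtain ⟨i, hi⟩ := this.exists
      exact lt_irrefl _ hi
    have h1 : ¬ ∀ᶠ i in (U.map e : Filter ℕ), φ 0 i ∈ A i := fun h => hφ0 ((hA (φ 0)).2 h)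
    rw [← Ultrafilter.eventually_not] at h1
    set f : ℕ → ℕ := fun i => sInf {m | m + 1 ∉ A i} with hf
    have hne : ∀ᶠ i in (U.map e : Filter ℕ), f i ∈ A i ∧ f i + 1 ∉ A i := by
      filter_upwards [h0, h1] with i hi0 hi1
      have hφpos : φ 0 i ≠ 0 := by
        intro h
        rw [h] at hi1
        exact hi1 hi0
      have hnonempty : {m | m + 1 ∉ A i}.Nonempty := by
        refine ⟨φ 0 i - 1, ?_⟩
        rw [Set.mem_ofPred_eq, Nat.sub_add_cancel (Nat.one_le_iff_ne_zero.2 hφpos)]
        exact hi1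
      constructor
      · by_cases hfi : f i = 0
        · rw [hfi]; exact hi0
        · by_contra hcon
          have h2 : f i - 1 ∈ {m | m + 1 ∉ A i} := by
            rw [Set.mem_ofPred_eq, Nat.sub_add_cancel (Nat.one_le_iff_ne_zero.2 hfi)]
            exact hcon
          have h3 : f i ≤ f i - 1 := Nat.sInf_le h2
          omega
      · exact Nat.sInf_mem hnonempty
    have h2 : (f : StarN (U.map e)) ∈ Cut (U.map e) P := (hA f).2 (hne.mono fun i hi => hi.1)
    obtain ⟨f', hf', hb⟩ := h2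
    have heq : ∀ᶠ i in (U.map e : Filter ℕ), f i = f' i := Filter.Germ.coe_eq.1 hf'
    have h3 : ((fun i => f i + 1 : ℕ → ℕ) : StarN (U.map e)) ∈ Cut (U.map e) P := by
      refine ⟨fun i => f' i + 1, ?_, ?_⟩
      · rw [Filter.Germ.coe_eq]
        have : ∀ᶠ i in (U.map e : Filter ℕ), f i + 1 = f' i + 1 := by
          filter_upwards [heq] with i hi
          rw [hi]
        exact this
      · intro j
        obtain ⟨m, hm⟩ := hb j
        refine ⟨m + 1, ?_⟩
        rintro _ ⟨i, hi, rfl⟩
        have := hm ⟨i, hi, rfl⟩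
        simp only
        omega
    have h4 := (hA _).1 h3
    obtain ⟨i, hi1, hi2⟩ := (h4.and hne).exists
    exact hi2.2 hi1
  · -- a δ-set
    refine ⟨fun k => {x | ∃ f : ℕ → ℕ, x = (f : StarN (U.map e)) ∧
      ∀ᶠ i in (U.map e : Filter ℕ), f i < φ k i}, ?_, ?_⟩
    · intro k
      refine ⟨fun i => {m | m < φ k i}, ?_⟩
      intro f
      constructor
      · rintro ⟨f', hf', hlt⟩
        have heq : ∀ᶠ i in (U.map e : Filter ℕ), f i = f' i := Filter.Germ.coe_eq.1 hf'
        filter_upwards [heq, hlt] with i hi1 hi2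
        show f i < φ k i
        rw [hi1]
        exact hi2
      · intro h
        exact ⟨f, rfl, h⟩
    · ext x
      induction x using Filter.Germ.inductionOn with
      | _ f =>
        rw [hcut, Set.mem_iInter]
        constructor
        · intro h k
          exact ⟨f, rfl, h k⟩
        · intro h k
          obtain ⟨f', hf', hlt⟩ := h k
          have heq : ∀ᶠ i in (U.map e : Filter ℕ), f i = f' i := Filter.Germ.coe_eq.1 hf'
          filter_upwards [heq, hlt] with i hi1 hi2
          rw [hi1]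
          exact hi2

/-- Consistent negative answer to Q1: `𝔡 = 𝔠` implies the negated form of Q1; in particular the
continuum hypothesis does. -/
theorem result : (DominatingIsContinuum → Q1Fails) ∧
    (Cardinal.continuum.{0} = Cardinal.aleph 1 → Q1Fails) :=
  ⟨fun h => main (dom_of h), fun h => main (dom_of (ch_imp h))⟩

end Pool.Agent.Results.MP_90cb67_lc.CutIsDelta
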